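import Mathlib
import Pool.Agent.H1.CM.Targets2
import Pool.Agent.H1.CM.SBasic

/-!
# BC: base change of the standard charts
-/

open CategoryTheory AlgebraicGeometry Limits

namespace Pool.Agent.H1.CM

namespace BC

/-- Base change of a basis along a pushout of rings. -/
lemma push_basis {A A' C C' : Type} [CommRing A] [CommRing A'] [CommRing C] [CommRing C']
    [Algebra A A'] [Algebra A C] [Algebra A' C'] [Algebra C C'] [Algebra A C']
    [IsScalarTower A A' C'] [IsScalarTower A C C'] [h : Algebra.IsPushout A A' C C']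
    {I : Type} (v : I → C) (hv : Function.Bijective (Finsupp.linearCombination A v)) :
    Function.Bijective (Finsupp.linearCombination A' fun x => algebraMap C C' (v x)) := by
  let b : Module.Basis I A C := Module.Basis.ofRepr (LinearEquiv.ofBijective _ hv).symm
  have hb : ∀ x, b x = v x := by
    intro x
    simp [b, Module.Basis.coe_ofRepr]
  have ibc := h.out
  let b' := ibc.basis b
  have hb' : (fun x => algebraMap C C' (v x)) = b' := by
    funext x
    rw [ibc.basis_apply b x, hb]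
    rfl
  rw [hb', ← Module.Basis.coe_repr_symm]
  exact b'.repr.symm.bijective

section

variable {A A' : Type} [CommRing A] [CommRing A'] {φ : A →+* A'}
  {X X' : Scheme.{0}} {f : X ⟶ Spec (CommRingCat.of A)} {f' : X' ⟶ Spec (CommRingCat.of A')}
  {g : X' ⟶ X}

lemma isPushout_scal (hP : IsPullback g f' f (Spec.map (CommRingCat.ofHom φ))) (U : X.Opens)
    (hU : IsAffineOpen U) :
    IsPushout (CommRingCat.ofHom (scal f U)) (CommRingCat.ofHom φ)
      (g.appLE U (g ⁻¹ᵁ U) le_rfl) (CommRingCat.ofHom (scal f' (g ⁻¹ᵁ U))) := by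
  have hUY : g ⁻¹ᵁ U = g ⁻¹ᵁ U ⊓ f' ⁻¹ᵁ ⊤ := by simp
  have h := (isIso_pushoutSection_iff hP (US := ⊤) (UT := ⊤) (UX := U) (by simp) (by simp) hUY).mp
    (isIso_pushoutSection_of_isAffineOpen hP (by simp) (by simp) hUY
      (isAffineOpen_top _) (isAffineOpen_top _) hU)
  refine IsPushout.of_iso h (Scheme.ΓSpecIso (CommRingCat.of A)) (Iso.refl _)
    (Scheme.ΓSpecIso (CommRingCat.of A')) (Iso.refl _) ?_ ?_ ?_ ?_
  · rw [scal_eq]
    simp
  · have := Scheme.ΓSpecIso_naturality (CommRingCat.ofHom φ)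
    rw [← this]
    congr 1
  · simp
  · rw [scal_eq]
    simp

/-- Base change of a basis of sections. -/
lemma bc_basis (hP : IsPullback g f' f (Spec.map (CommRingCat.ofHom φ))) (U : X.Opens)
    (hU : IsAffineOpen U) {I : Type} (v : I → Γ(X, U))
    (hv : letI := (scal f U).toAlgebra
      Function.Bijective (Finsupp.linearCombination A v)) :
    letI := (scal f' (g ⁻¹ᵁ U)).toAlgebra
    Function.Bijective (Finsupp.linearCombination A'
      fun x => (g.appLE U (g ⁻¹ᵁ U) le_rfl).hom (v x)) := by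
  letI := (scal f U).toAlgebra
  letI := (scal f' (g ⁻¹ᵁ U)).toAlgebra
  letI := φ.toAlgebra
  letI := (g.appLE U (g ⁻¹ᵁ U) le_rfl).hom.toAlgebra
  letI : Algebra A Γ(X', g ⁻¹ᵁ U) := ((scal f' (g ⁻¹ᵁ U)).comp φ).toAlgebra
  haveI : IsScalarTower A A' Γ(X', g ⁻¹ᵁ U) := IsScalarTower.of_algebraMap_eq fun x => rfl
  haveI : IsScalarTower A Γ(X, U) Γ(X', g ⁻¹ᵁ U) := IsScalarTower.of_algebraMap_eq fun x =>
    (scal_appLE φ f f' g hP.w U (g ⁻¹ᵁ U) le_rfl x).symm
  haveI : Algebra.IsPushout A A' Γ(X, U) Γ(X', g ⁻¹ᵁ U) := by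
    rw [← CommRingCat.isPushout_iff_isPushout]
    exact (isPushout_scal hP U hU).flip
  exact push_basis v hv

end


/-- Ratios of coordinates are monomials. -/
def ridx (r r' : Fin 3) : Idx :=
  ((if r' = 0 then 1 else 0) - (if r = 0 then 1 else 0),
    (if r' = 1 then 1 else 0) - (if r = 1 then 1 else 0), 0)

lemma ratio_eq {C : Type} [CommRing C] (q : Quad C) (r r' : Fin 3) :
    q.ratio r r' = q.mon (ridx r r') := by
  fin_cases r <;> fin_cases r' <;>
    (simp [Quad.ratio, Quad.cu, ridx, Quad.mon, Quad.e]) <;> ring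

lemma ridx_mem (r r' : Fin 3) : ridx r r' ∈ reg {r} := by
  intro x hx
  fin_cases r <;> fin_cases r' <;> fin_cases x <;> simp [ridx, expo, dg] at hx ⊢

lemma map_ratio {C C' : Type} [CommRing C] [CommRing C'] (ψ : C →+* C') (q : Quad C)
    (r r' : Fin 3) : (q.map ψ).ratio r r' = ψ (q.ratio r r') := by
  rw [ratio_eq, ratio_eq, Quad.map_mon]

section

variable {A : Type} [CommRing A] {X : Scheme.{0}} {f : X ⟶ Spec (CommRingCat.of A)}

/-- Restriction of linear combinations to the torus chart. -/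
lemma rs_lin (V : Finset (Fin 3) → X.Opens) (T : Finset (Fin 3)) (hle : V Finset.univ ≤ V T)
    (β : Idx → Γ(X, V Finset.univ)) {I : Type} (j : I → Idx) (w : I → Γ(X, V T))
    (hw : ∀ x, rs X hle (w x) = β (j x)) (a : I →₀ A) :
    letI := (scal f (V T)).toAlgebra
    rs X hle (Finsupp.linearCombination A w a)
      = comb (scal f (V Finset.univ)) β (Finsupp.mapDomain j a) := by
  letI := (scal f (V T)).toAlgebra
  unfold comb
  rw [Finsupp.sum_mapDomain_index (by simp) (by intros; simp [add_mul]),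
    Finsupp.linearCombination_apply, Finsupp.sum, Finsupp.sum, map_sum]
  refine Finset.sum_congr rfl fun x _ => ?_
  rw [Algebra.smul_def, map_mul, hw]
  congr 1
  exact rs_scal f _ _

/-- Injectivity of the restriction from bases. -/
lemma inj_of_basis (V : Finset (Fin 3) → X.Opens) (T : Finset (Fin 3))
    (hle : V Finset.univ ≤ V T) (β : Idx → Γ(X, V Finset.univ))
    (hβ : Function.Bijective (comb (scal f (V Finset.univ)) β))
    (w : {s // s ∈ reg T} → Γ(X, V T)) (hw : ∀ x, rs X hle (w x) = β x.1)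
    (hb : letI := (scal f (V T)).toAlgebra
      Function.Bijective (Finsupp.linearCombination A w)) :
    Function.Injective (rs X hle) := by
  letI := (scal f (V T)).toAlgebra
  rw [injective_iff_map_eq_zero]
  intro c hc
  obtain ⟨a, rfl⟩ := hb.2 c
  rw [rs_lin (f := f) V T hle β Subtype.val w hw a, ← comb_zero (scal f (V Finset.univ)) β] at hc
  have h1 := hβ.1 hc
  have h2 : a = 0 := by
    apply Finsupp.mapDomain_injective Subtype.val_injective
    rw [h1, Finsupp.mapDomain_zero]
  rw [h2, map_zero]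

/-- Frame from bases. -/
lemma mem_of_basis (V : Finset (Fin 3) → X.Opens) (T : Finset (Fin 3))
    (hle : V Finset.univ ≤ V T) (β : Idx → Γ(X, V Finset.univ))
    (w : {s // s ∈ reg T} → Γ(X, V T)) (hw : ∀ x, rs X hle (w x) = β x.1)
    (hb : letI := (scal f (V T)).toAlgebra
      Function.Bijective (Finsupp.linearCombination A w)) (c : Γ(X, V Finset.univ)) :
    c ∈ BX X V T ↔ ∃ a : Idx →₀ A, (∀ s ∈ a.support, s ∈ reg T) ∧
      c = comb (scal f (V Finset.univ)) β a := by
  classical
  letI := (scal f (V T)).toAlgebra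
  constructor
  · intro hc
    rw [mem_BX V T hle] at hc
    obtain ⟨b, rfl⟩ := hc
    obtain ⟨a, rfl⟩ := hb.2 b
    refine ⟨Finsupp.mapDomain Subtype.val a, ?_, rs_lin (f := f) V T hle β _ w hw a⟩
    intro s hs
    have := Finsupp.mapDomain_support hs
    rw [Finset.mem_image] at this
    obtain ⟨x, _, rfl⟩ := this
    exact x.2
  · rintro ⟨a, ha, rfl⟩
    unfold comb
    rw [Finsupp.sum]
    refine Subring.sum_mem _ fun s hs => Subring.mul_mem _ ?_ ?_
    · rw [mem_BX V T hle]
      exact ⟨scal f (V T) (a s), rs_scal f _ _⟩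
    · rw [mem_BX V T hle]
      exact ⟨w ⟨s, ha s hs⟩, hw ⟨s, ha s hs⟩⟩

/-- Bases from the standard charts. -/
lemma exists_basis {D : Data A} (S : StdOver f D) (T : Finset (Fin 3)) (hT : T.Nonempty) :
    ∃ w : {s // s ∈ reg T} → Γ(X, S.V T), (∀ x, rs X (S.le T hT) (w x) = S.q.mon x.1) ∧
      letI := (scal f (S.V T)).toAlgebra
      Function.Bijective (Finsupp.linearCombination A w) := by
  classical
  have hex : ∀ x : {s // s ∈ reg T}, ∃ b : Γ(X, S.V T), rs X (S.le T hT) b = S.q.mon x.1 := by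
    intro x
    rw [← mem_BX S.V T (S.le T hT), S.frame.mem T hT]
    refine ⟨Finsupp.single x.1 1, ?_, by simp [comb_single]⟩
    intro t ht
    have := Finsupp.support_single_subset ht
    rw [Finset.mem_singleton] at this
    rw [this]
    exact x.2
  choose w hw using hex
  refine ⟨w, hw, ?_⟩
  letI := (scal f (S.V T)).toAlgebra
  constructor
  · rw [injective_iff_map_eq_zero]
    intro a ha
    have h1 := rs_lin (f := f) S.V T (S.le T hT) S.q.mon Subtype.val w hw a
    rw [ha, map_zero, ← comb_zero (scal f (S.V Finset.univ)) S.q.mon] at h1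
    have h2 := S.frame.bij.1 h1
    apply Finsupp.mapDomain_injective Subtype.val_injective
    rw [← h2, Finsupp.mapDomain_zero]
  · intro c
    have hc : rs X (S.le T hT) c ∈ BX X S.V T := by
      rw [mem_BX S.V T (S.le T hT)]
      exact ⟨c, rfl⟩
    rw [S.frame.mem T hT] at hc
    obtain ⟨G, hG, hcG⟩ := hc
    refine ⟨Finsupp.comapDomain Subtype.val G Subtype.val_injective.injOn, ?_⟩
    apply S.inj T hT
    rw [rs_lin (f := f) S.V T (S.le T hT) S.q.mon Subtype.val w hw, hcG,
      Finsupp.mapDomain_comapDomain Subtype.val Subtype.val_injective]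
    intro s hs
    exact ⟨⟨s, hG s hs⟩, rfl⟩

end

end BC

theorem bc : T_BC := by
  classical
  intro A A' _ _ φ X X' f f' g hP D D' S hD
  haveI : IsAffineHom g := MorphismProperty.of_isPullback hP.flip inferInstance
  have hun : (Finset.univ : Finset (Fin 3)).Nonempty := Finset.univ_nonempty
  -- the data
  let V' : Finset (Fin 3) → X'.Opens := fun T => g ⁻¹ᵁ (S.V T)
  let ψ : Γ(X, S.V Finset.univ) →+* Γ(X', V' Finset.univ) :=
    (g.appLE (S.V Finset.univ) (g ⁻¹ᵁ (S.V Finset.univ)) le_rfl).hom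
  let q' : Quad Γ(X', V' Finset.univ) := S.q.map ψ
  have hcomm : ∀ a, ψ (scal f (S.V Finset.univ) a) = scal f' (V' Finset.univ) (φ a) := fun a =>
    scal_appLE φ f f' g hP.w _ _ le_rfl a
  have hle : ∀ T : Finset (Fin 3), T.Nonempty → V' Finset.univ ≤ V' T := fun T hT x hx =>
    S.le T hT hx
  have hbij : Function.Bijective (comb (scal f' (V' Finset.univ)) q'.mon) := by
    have h := BC.bc_basis hP (S.V Finset.univ) (S.affine Finset.univ hun) S.q.mon (by
      letI := (scal f (S.V Finset.univ)).toAlgebra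
      have : (Finsupp.linearCombination A S.q.mon : (Idx →₀ A) → _)
          = comb (scal f (S.V Finset.univ)) S.q.mon := by
        funext a
        rw [Finsupp.linearCombination_apply]
        rfl
      rw [this]
      exact S.frame.bij)
    letI := (scal f' (V' Finset.univ)).toAlgebra
    have : comb (scal f' (V' Finset.univ)) q'.mon
        = (Finsupp.linearCombination A' fun x => ψ (S.q.mon x) : (Idx →₀ A') → _) := by
      funext a
      rw [Finsupp.linearCombination_apply]
      unfold comb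
      refine Finset.sum_congr rfl fun s _ => ?_
      change scal f' (V' Finset.univ) (a s) * q'.mon s = a s • ψ (S.q.mon s)
      rw [Algebra.smul_def, Quad.map_mon]
      rfl
    rw [this]
    exact h
  have hbas : ∀ (T : Finset (Fin 3)) (hT : T.Nonempty),
      ∃ w : {s // s ∈ reg T} → Γ(X', V' T), (∀ x, rs X' (hle T hT) (w x) = q'.mon x.1) ∧
      letI := (scal f' (V' T)).toAlgebra
      Function.Bijective (Finsupp.linearCombination A' w) := by
    intro T hT
    obtain ⟨w, hw, hb⟩ := BC.exists_basis S T hT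
    refine ⟨fun x => (g.appLE (S.V T) (g ⁻¹ᵁ (S.V T)) le_rfl).hom (w x), fun x => ?_,
      BC.bc_basis hP (S.V T) (S.affine T hT) w hb⟩
    have := appLE_rs g (S.le T hT) (hle T hT) le_rfl le_rfl (w x)
    rw [← this, hw, Quad.map_mon]
  have hinj : ∀ (T : Finset (Fin 3)) (hT : T.Nonempty), Function.Injective (rs X' (hle T hT)) := by
    intro T hT
    obtain ⟨w, hw, hb⟩ := hbas T hT
    exact BC.inj_of_basis (f := f') V' T (hle T hT) q'.mon hbij w hw hb
  refine ⟨⟨V', q', ?_, ?_, hle, ?_, ?_, hinj, ⟨hbij, ?_⟩, ?_, ?_⟩, fun _ => rfl, ?_⟩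
  · intro T hT
    exact (S.affine T hT).preimage g
  · intro T T' hT hT'
    change g ⁻¹ᵁ (S.V T ⊓ S.V T') = g ⁻¹ᵁ (S.V (T ∪ T'))
    rw [S.inter T T' hT hT']
  · change g ⁻¹ᵁ (S.V ∅) = ⊤
    rw [S.emp]
    rfl
  · change ⨆ r : Fin 3, g ⁻¹ᵁ (S.V {r}) = ⊤
    rw [← Scheme.Hom.preimage_iSup, S.cover]
    rfl
  · intro T hT c
    obtain ⟨w, hw, hb⟩ := hbas T hT
    exact BC.mem_of_basis (f := f') V' T (hle T hT) q'.mon w hw hb c
  · have := S.rel.map φ ψ hcomm
    rw [hD] at this
    exact this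
  · intro r r' u' hu'
    have hr : ({r} : Finset (Fin 3)).Nonempty := Finset.singleton_nonempty r
    obtain ⟨w, hw, _⟩ := BC.exists_basis S {r} hr
    have hu : rs X (S.le {r} hr) (w ⟨BC.ridx r r', BC.ridx_mem r r'⟩) = S.q.ratio r r' := by
      rw [hw, BC.ratio_eq]
    have h1 := S.basic r r' _ hu
    have h2 : u' = (g.app (S.V {r})).hom (w ⟨BC.ridx r r', BC.ridx_mem r r'⟩) := by
      apply hinj {r} hr
      rw [hu', Scheme.Hom.app_eq_appLE]
      have := appLE_rs g (S.le {r} hr) (hle {r} hr) le_rfl le_rfl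
        (w ⟨BC.ridx r r', BC.ridx_mem r r'⟩)
      rw [← this, hu, BC.map_ratio]
    rw [h2]
    have h3 := Scheme.preimage_basicOpen g (w ⟨BC.ridx r r', BC.ridx_mem r r'⟩)
    exact h3.symm.trans (congrArg (fun U => g ⁻¹ᵁ U) h1)
  · exact ⟨le_rfl, rfl⟩

end Pool.Agent.H1.CM
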