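import Mathlib
import Pool.Agent.H1.CM.Targets2
import Pool.Agent.H1.CM.SBasic

/-!
# LINB: the Čech data of a flat deformation
-/

open CategoryTheory AlgebraicGeometry Limits

namespace Pool.Agent.H1.CM

open IsLocalRing

namespace LINB

/-- `s` is regular on the chart of its negative exponents. -/
lemma reg_iff (s : Idx) (S : Finset (Fin 3)) :
    s ∈ reg S ↔ (Finset.univ.filter fun r => expo s r < 0) ⊆ S := by
  constructor
  · intro h r hr
    by_contra hn
    have := h r hn
    rw [Finset.mem_filter] at hr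
    omega
  · intro h r hr
    by_contra hn
    apply hr
    apply h
    rw [Finset.mem_filter]
    exact ⟨Finset.mem_univ r, by omega⟩

lemma reg_empty {s : Idx} (h : (Finset.univ.filter fun r => expo s r < 0) = ∅) :
    s = (0, 0, 0) := by
  have h0 : ∀ r, 0 ≤ expo s r := by
    intro r
    by_contra hn
    have : r ∈ (Finset.univ.filter fun r => expo s r < 0) := by
      rw [Finset.mem_filter]
      exact ⟨Finset.mem_univ r, by omega⟩
    rw [h] at this
    simp at this
  obtain ⟨i, j, t⟩ := s
  have h1 := h0 0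
  have h2 := h0 1
  have h3 := h0 2
  fin_cases t <;> simp [expo, dg] at h1 h2 h3 ⊢ <;> omega

lemma reg_univ (s : Idx) : s ∈ reg Finset.univ := by
  intro r hr
  exact absurd (Finset.mem_univ r) hr

/-- A section of `π` sending `0` to `0`. -/
lemma exists_lift {A k : Type} [CommRing A] [Field k] (π : A →+* k)
    (hπ : Function.Surjective π) : ∃ l : k → A, l 0 = 0 ∧ ∀ c, π (l c) = c := by
  classical
  refine ⟨fun c => if c = 0 then 0 else Function.surjInv hπ c, by simp, fun c => ?_⟩
  by_cases hc : c = 0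
  · simp [hc]
  · simp only [hc, if_false]
    exact Function.surjInv_eq hπ c

lemma mem_max_of_zero {A k : Type} [CommRing A] [IsLocalRing A] [Field k] (π : A →+* k)
    {a : A} (h : π a = 0) : a ∈ maximalIdeal A := by
  rw [mem_maximalIdeal, mem_nonunits_iff]
  intro hu
  have := hu.map π
  rw [h] at this
  exact not_isUnit_zero this

section

variable {A k : Type} [CommRing A] [IsLocalRing A] [IsArtinianRing A] [Field k]
  {π : A →+* k} {X X₀ : Scheme.{0}} {f : X ⟶ Spec (CommRingCat.of A)}
  {s₀ : X₀ ⟶ Spec (CommRingCat.of k)} {i : X₀ ⟶ X}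

lemma sur' (h2 : T_SUR) (hπ : Function.Surjective π)
    (hP : IsPullback i s₀ f (Spec.map (CommRingCat.ofHom π))) (U : X.Opens) (hU : IsAffineOpen U)
    (W₀ : X₀.Opens) (h : i ⁻¹ᵁ U = W₀) :
    Function.Surjective (i.appLE U W₀ h.ge).hom ∧
    ∀ g : Γ(X, U), (i.appLE U W₀ h.ge).hom g = 0 ↔
      g ∈ Ideal.map (scal f U) (maximalIdeal A) := by
  subst h
  have := h2 π hπ f s₀ i hP U hU
  rw [Scheme.Hom.app_eq_appLE] at this
  exact ⟨this.2.1, this.2.2⟩

/-- A lift of a monomial which is a section over all the charts where the monomial is regular. -/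
lemma exists_beta (h2 : T_SUR) (hπ : Function.Surjective π)
    (hP : IsPullback i s₀ f (Spec.map (CommRingCat.ofHom π)))
    {D₀ : Data k} (S₀ : StdOver s₀ D₀) (V : Finset (Fin 3) → X.Opens)
    (hV : ∀ S : Finset (Fin 3), i ⁻¹ᵁ (V S) = S₀.V S)
    (hmono : ∀ S T : Finset (Fin 3), S.Nonempty → S ⊆ T → V T ≤ V S)
    (haff : ∀ S : Finset (Fin 3), S.Nonempty → IsAffineOpen (V S)) (s : Idx) :
    ∃ β : Γ(X, V Finset.univ),
      (i.appLE (V Finset.univ) (S₀.V Finset.univ) (hV Finset.univ).ge).hom β = S₀.q.mon s ∧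
      ∀ (S : Finset (Fin 3)) (hS : S.Nonempty), s ∈ reg S →
        ∃ b : Γ(X, V S), rs X (hmono S Finset.univ hS (Finset.subset_univ S)) b = β := by
  classical
  by_cases hne : (Finset.univ.filter fun r => expo s r < 0).Nonempty
  · set R := (Finset.univ.filter fun r => expo s r < 0) with hR
    have hsR : s ∈ reg R := (reg_iff s R).mpr (by rw [← hR])
    have hmem : S₀.q.mon s ∈ BX X₀ S₀.V R := by
      rw [S₀.frame.mem R hne]
      refine ⟨Finsupp.single s 1, ?_, by simp [comb_single]⟩
      intro t ht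
      have := Finsupp.support_single_subset ht
      rw [Finset.mem_singleton] at this
      rw [this]
      exact hsR
    rw [mem_BX S₀.V R (S₀.le R hne)] at hmem
    obtain ⟨b₀, hb₀⟩ := hmem
    obtain ⟨b, hb⟩ := (sur' h2 hπ hP (V R) (haff R hne) (S₀.V R) (hV R)).1 b₀
    refine ⟨rs X (hmono R Finset.univ hne (Finset.subset_univ R)) b, ?_, ?_⟩
    · rw [appLE_rs i _ (S₀.le R hne) _ (hV R).ge, hb, hb₀]
    · intro S hS hs
      have hRS : R ⊆ S := (reg_iff s S).mp hs
      refine ⟨rs X (hmono R S hne hRS) b, ?_⟩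
      rw [rs_rs]
  · rw [Finset.not_nonempty_iff_eq_empty] at hne
    have hs := reg_empty hne
    subst hs
    refine ⟨1, ?_, fun S hS _ => ⟨1, by rw [map_one]⟩⟩
    rw [map_one, Quad.mon_zero]

/-- Freeness of the sections over the charts. -/
lemma free_chart (h2 : T_SUR) (h4 : T_FLAT) (h5 : T_FLB) (hπ : Function.Surjective π)
    (hflat : Flat f)
    (hP : IsPullback i s₀ f (Spec.map (CommRingCat.ofHom π)))
    {D₀ : Data k} (S₀ : StdOver s₀ D₀) (V : Finset (Fin 3) → X.Opens)
    (hV : ∀ S : Finset (Fin 3), i ⁻¹ᵁ (V S) = S₀.V S)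
    (hmono : ∀ S T : Finset (Fin 3), S.Nonempty → S ⊆ T → V T ≤ V S)
    (haff : ∀ S : Finset (Fin 3), S.Nonempty → IsAffineOpen (V S))
    (β : Idx → Γ(X, V Finset.univ))
    (hβ : ∀ s, (i.appLE (V Finset.univ) (S₀.V Finset.univ) (hV Finset.univ).ge).hom (β s)
      = S₀.q.mon s)
    (S : Finset (Fin 3)) (hS : S.Nonempty) (I : Type) (j : I → Idx)
    (hj : Function.Injective j) (hjr : ∀ s, s ∈ reg S ↔ s ∈ Set.range j)
    (v : I → Γ(X, V S))
    (hv : ∀ x, rs X (hmono S Finset.univ hS (Finset.subset_univ S)) (v x) = β (j x)) :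
    letI := (scal f (V S)).toAlgebra
    Function.Bijective (Finsupp.linearCombination A v) := by
  classical
  letI := (scal f (V S)).toAlgebra
  haveI : Module.Flat A Γ(X, V S) := h4 f hflat (V S) (haff S hS)
  have hsur := sur' h2 hπ hP (V S) (haff S hS) (S₀.V S) (hV S)
  obtain ⟨l, hl0, hl⟩ := exists_lift π hπ
  -- the pull-back of a linear combination, restricted to the torus chart
  have key : ∀ g : I →₀ A, rs X₀ (S₀.le S hS)
      ((i.appLE (V S) (S₀.V S) (hV S).ge).hom (Finsupp.linearCombination A v g))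
      = comb (scal s₀ (S₀.V Finset.univ)) S₀.q.mon
        (Finsupp.mapDomain j (g.mapRange π (map_zero π))) := by
    intro g
    unfold comb
    rw [Finsupp.sum_mapDomain_index (by simp) (by intros; simp [add_mul]),
      Finsupp.sum_mapRange_index (by simp), Finsupp.linearCombination_apply, Finsupp.sum,
      Finsupp.sum, map_sum, map_sum]
    refine Finset.sum_congr rfl fun x _ => ?_
    rw [Algebra.smul_def, map_mul, map_mul]
    congr 1
    · change rs X₀ (S₀.le S hS) ((i.appLE (V S) (S₀.V S) (hV S).ge).hom (scal f (V S) (g x))) = _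
      rw [scal_appLE π f s₀ i hP.w (V S) (S₀.V S) (hV S).ge, rs_scal]
    · rw [← appLE_rs i (hmono S Finset.univ hS (Finset.subset_univ S)) (S₀.le S hS)
        (hV Finset.univ).ge (hV S).ge, hv, hβ]
  have hmem : ∀ x : Γ(X, V S), x ∈ (maximalIdeal A • (⊤ : Submodule A Γ(X, V S))) ↔
      x ∈ Ideal.map (scal f (V S)) (maximalIdeal A) := by
    intro x
    rw [Ideal.smul_top_eq_map]
    exact Iff.rfl
  apply h5
  · intro x
    have h1 : rs X₀ (S₀.le S hS) ((i.appLE (V S) (S₀.V S) (hV S).ge).hom x)
        ∈ BX X₀ S₀.V S := by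
      rw [mem_BX S₀.V S (S₀.le S hS)]
      exact ⟨_, rfl⟩
    rw [S₀.frame.mem S hS] at h1
    obtain ⟨g₀, hg₀, hx⟩ := h1
    refine ⟨(Finsupp.comapDomain j g₀ hj.injOn).mapRange l hl0, ?_⟩
    rw [hmem, ← hsur.2, map_sub, sub_eq_zero]
    apply S₀.inj S hS
    rw [key, hx]
    congr 1
    have : (((Finsupp.comapDomain j g₀ hj.injOn).mapRange l hl0).mapRange π (map_zero π))
        = Finsupp.comapDomain j g₀ hj.injOn := by
      ext x
      simp [hl]
    rw [this, Finsupp.mapDomain_comapDomain j hj]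
    intro s hs
    exact (hjr s).mp (hg₀ s hs)
  · intro g hg x
    rw [hmem, ← hsur.2] at hg
    have h1 := key g
    rw [hg, map_zero] at h1
    have h3 : Finsupp.mapDomain j (g.mapRange π (map_zero π)) = 0 := by
      apply S₀.frame.bij.1
      rw [← h1, comb_zero]
    have h4' := DFunLike.congr_fun h3 (j x)
    rw [Finsupp.mapDomain_apply hj, Finsupp.mapRange_apply, Finsupp.zero_apply] at h4'
    exact mem_max_of_zero π h4'

end

end LINB

theorem linb (h1 : T_HOM) (h2 : T_SUR) (h3 : T_AFF) (h4 : T_FLAT) (h5 : T_FLB) : T_LINB := by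
  classical
  intro A k _ _ _ _ π hπ hA2 X X₀ f s₀ i hflat hP D₀ S₀ V hV
  have hmono : ∀ S T : Finset (Fin 3), S.Nonempty → S ⊆ T → V T ≤ V S := by
    intro S T hS hST
    apply (h1 π hπ f s₀ i hP).2.2
    rw [hV, hV, ← inf_eq_right, S₀.inter S T hS (hS.mono hST),
      Finset.union_eq_right.mpr hST]
  have haff : ∀ S : Finset (Fin 3), S.Nonempty → IsAffineOpen (V S) := by
    intro S hS
    apply h3 π hπ hA2 f s₀ i hP
    rw [hV]
    exact S₀.affine S hS
  have hun : (Finset.univ : Finset (Fin 3)).Nonempty := Finset.univ_nonempty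
  choose β hβ hβ' using LINB.exists_beta h2 hπ hP S₀ V hV hmono haff
  refine ⟨(hV Finset.univ).ge, ?_⟩
  have hcomm : ∀ a, (i.appLE (V Finset.univ) (S₀.V Finset.univ) (hV Finset.univ).ge).hom
      (scal f (V Finset.univ) a) = scal s₀ (S₀.V Finset.univ) (π a) := fun a =>
    scal_appLE π f s₀ i hP.w (V Finset.univ) (S₀.V Finset.univ) (hV Finset.univ).ge a
  have hlin : ∀ (S : Finset (Fin 3)) (hS : S.Nonempty) (I : Type) (j : I → Idx)
      (v : I → Γ(X, V S))
      (hv : ∀ x, rs X (hmono S Finset.univ hS (Finset.subset_univ S)) (v x) = β (j x))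
      (g : I →₀ A), letI := (scal f (V S)).toAlgebra
      rs X (hmono S Finset.univ hS (Finset.subset_univ S)) (Finsupp.linearCombination A v g)
        = comb (scal f (V Finset.univ)) β (Finsupp.mapDomain j g) := by
    intro S hS I j v hv g
    letI := (scal f (V S)).toAlgebra
    unfold comb
    rw [Finsupp.sum_mapDomain_index (by simp) (by intros; simp [add_mul]),
      Finsupp.linearCombination_apply, Finsupp.sum, Finsupp.sum, map_sum]
    refine Finset.sum_congr rfl fun x _ => ?_
    rw [Algebra.smul_def, map_mul, hv]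
    congr 1
    exact rs_scal f _ _
  refine
    { comm := hcomm
      mono := ?_
      basis := ⟨β, ⟨?_, ?_⟩, hβ⟩
      surj := hπ
      fr₀ := S₀.frame.bij }
  · intro S T hS hST c hc
    rw [mem_BX V S (hmono S Finset.univ hS (Finset.subset_univ S))] at hc
    obtain ⟨b, rfl⟩ := hc
    rw [mem_BX V T (hmono T Finset.univ (hS.mono hST) (Finset.subset_univ T))]
    exact ⟨rs X (hmono S T hS hST) b, rs_rs _ _ _⟩
  · have h := LINB.free_chart h2 h4 h5 hπ hflat hP S₀ V hV hmono haff β hβ Finset.univ hun Idx id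
      Function.injective_id (fun s => by simp [LINB.reg_univ]) β (fun x => by simp)
    letI := (scal f (V Finset.univ)).toAlgebra
    have h' : (comb (scal f (V Finset.univ)) β)
        = (Finsupp.linearCombination A β : (Idx →₀ A) → Γ(X, V Finset.univ)) := by
      funext g
      have := hlin Finset.univ hun Idx id β (fun x => by simp) g
      rw [Finsupp.mapDomain_id] at this
      rw [← this, rs_refl]
    rw [h']
    exact h
  · intro S hS c
    constructor
    · intro hc
      rw [mem_BX V S (hmono S Finset.univ hS (Finset.subset_univ S))] at hc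
      obtain ⟨b, rfl⟩ := hc
      have hvex : ∀ x : {s // s ∈ reg S}, ∃ b : Γ(X, V S),
          rs X (hmono S Finset.univ hS (Finset.subset_univ S)) b = β x.1 :=
        fun x => hβ' x.1 S hS x.2
      choose v hv using hvex
      have h := LINB.free_chart h2 h4 h5 hπ hflat hP S₀ V hV hmono haff β hβ S hS
        {s // s ∈ reg S} Subtype.val Subtype.val_injective (fun s => by simp) v hv
      letI := (scal f (V S)).toAlgebra
      obtain ⟨g, rfl⟩ := h.2 b
      refine ⟨Finsupp.mapDomain Subtype.val g, ?_, hlin S hS _ _ v hv g⟩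
      intro s hs
      have := Finsupp.mapDomain_support hs
      rw [Finset.mem_image] at this
      obtain ⟨x, _, rfl⟩ := this
      exact x.2
    · rintro ⟨g, hg, rfl⟩
      unfold comb
      rw [Finsupp.sum]
      refine Subring.sum_mem _ fun s hs => Subring.mul_mem _ ?_ ?_
      · rw [mem_BX V S (hmono S Finset.univ hS (Finset.subset_univ S))]
        exact ⟨scal f (V S) (g s), rs_scal f _ _⟩
      · rw [mem_BX V S (hmono S Finset.univ hS (Finset.subset_univ S))]
        exact hβ' s S hS (hg s hs)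

end Pool.Agent.H1.CM
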